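import Pool.Agent.H61.NC.Final

/-!
# The elements of `S_4(r,s)` away from the two ends
-/

namespace Pool.Agent.Results.MP_4c9b54_co.Filling

open Pool.Agent.H20.Neg

/-- For all `r, s ≥ 2` and every number `c` between `1000 r s √max(r,s)` and
`(1 - 10^6/min(r,s)) (r s)² / 8`: `c` belongs to `S_4(r,s)` if and only if
`c (c - (r-1)(s-1))` is divisible by `4`. -/
theorem result (r s : ℕ) (hr : 2 ≤ r) (hs : 2 ≤ s) (c : ℕ)
    (h1 : 1000 * (r : ℝ) * s * √((max r s : ℕ) : ℝ) ≤ c)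
    (h2 : 8 * (c : ℝ) ≤ (1 - 1000000 / ((min r s : ℕ) : ℝ)) * ((r : ℝ) * s) ^ 2) :
    c ∈ S 4 r s ↔ (4 : ℤ) ∣ (c : ℤ) * (c - ((r : ℤ) - 1) * ((s : ℤ) - 1)) :=
  Pool.Agent.H61.NC.filling r s hr hs c h1 h2

end Pool.Agent.Results.MP_4c9b54_co.Filling
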