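import Pool.Agent.H20.Neg.Realize

/-!
# The upper bound on `S_4(r,s)` and orthogonal sign vectors
-/

namespace Pool.Agent.Results.MP_4c9b54_co.OrthogonalTop

open Pool.Agent.H20.Neg

/-- Every element of `S_4(r,s)` is at most `r (r-1) s² / 8`, and this value belongs to `S_4(r,s)`
exactly when there are `r` pairwise orthogonal sign vectors of length `s`. -/
theorem result (r s : ℕ) :
    (∀ c ∈ S 4 r s, 8 * c ≤ r * (r - 1) * s ^ 2) ∧
    ∀ c : ℕ, 8 * c = r * (r - 1) * s ^ 2 → (c ∈ S 4 r s ↔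
      ∃ v : Fin r → Fin s → ℤˣ, ∀ a b : Fin r, a ≠ b →
        ∑ j, ((v a j : ℤˣ) : ℤ) * ((v b j : ℤˣ) : ℤ) = 0) :=
  top r s

end Pool.Agent.Results.MP_4c9b54_co.OrthogonalTop
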