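import Pool.Agent.H20.Neg.ThreeMain

/-!
# The sets `S_l(r,s)` for `r ≤ 3`
-/

namespace Pool.Agent.Results.MP_4c9b54_co.SmallSide

open Pool.Agent.H20.Neg

/-- The sets `S_4(2,s)`, `S_4(3,s)`, `S_6(3,s)`, and the set of pairs `(c_4^-, c_6^-)` of
`K_{3,s}`, for every `s`. -/
theorem result (s : ℕ) :
    S 4 2 s = {c | ∃ a ≤ s, c = a * (s - a)} ∧
    S 4 3 s = {c : ℕ | ∃ n₀ n₁ n₂ n₃ : ℕ, n₀ + n₁ + n₂ + n₃ = s ∧
      (c : ℤ) = (s : ℤ) ^ 2 - (n₀ ^ 2 + n₁ ^ 2 + n₂ ^ 2 + n₃ ^ 2)} ∧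
    S 6 3 s = {c : ℕ | ∃ n₀ n₁ n₂ n₃ : ℕ, n₀ + n₁ + n₂ + n₃ = s ∧
      3 * (c : ℤ) = (s : ℤ) ^ 3 - 6 * s ^ 2
        + 3 * (s + 2) * (n₀ ^ 2 + n₁ ^ 2 + n₂ ^ 2 + n₃ ^ 2)
        - 4 * (n₀ ^ 3 + n₁ ^ 3 + n₂ ^ 3 + n₃ ^ 3)} ∧
    {p : ℕ × ℕ | ∃ σ : Fin 3 → Fin s → ℤˣ, negCount 4 σ = p.1 ∧ negCount 6 σ = p.2} =
      {p : ℕ × ℕ | ∃ n₀ n₁ n₂ n₃ : ℕ, n₀ + n₁ + n₂ + n₃ = s ∧
        (p.1 : ℤ) = (s : ℤ) ^ 2 - (n₀ ^ 2 + n₁ ^ 2 + n₂ ^ 2 + n₃ ^ 2) ∧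
        3 * (p.2 : ℤ) = (s : ℤ) ^ 3 - 6 * s ^ 2
          + 3 * (s + 2) * (n₀ ^ 2 + n₁ ^ 2 + n₂ ^ 2 + n₃ ^ 2)
          - 4 * (n₀ ^ 3 + n₁ ^ 3 + n₂ ^ 3 + n₃ ^ 3)} := by
  refine ⟨S_four_two s, ?_, ?_, ?_⟩
  · ext c
    constructor
    · rintro ⟨σ, hσ⟩
      obtain ⟨a, b, c', d, h1, h2, -⟩ := (joint_three s c (negCount 6 σ)).mp ⟨σ, hσ, rfl⟩
      exact ⟨a, b, c', d, h1, h2⟩
    · rintro ⟨a, b, c', d, h1, h2⟩
      subst h1
      obtain ⟨f, g, e1, e2, e3⟩ := exists_types a b c' d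
      obtain ⟨σ, hσ⟩ : ∃ σ : Fin 3 → Fin (a + b + c' + d) → ℤˣ, negCount 4 σ = c := by
        have e12 : eps ![g, f, fun _ => 1] {1, 2} = f := by
          funext j
          simp [eps]
        have e02 : eps ![g, f, fun _ => 1] {0, 2} = g := by
          funext j
          simp [eps]
        refine ⟨![g, f, fun _ => 1], ?_⟩
        have h := four_three ![g, f, fun _ => 1]
        simp_rw [eps_prod, e12, e02] at h
        rw [e1, e2, e3] at h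
        push_cast at h h2
        have : ((negCount 4 ![g, f, fun _ => 1] : ℕ) : ℤ) = (c : ℤ) := by linarith
        exact_mod_cast this
      exact ⟨σ, hσ⟩
  · ext c
    constructor
    · rintro ⟨σ, hσ⟩
      obtain ⟨a, b, c', d, h1, -, h2⟩ := (joint_three s (negCount 4 σ) c).mp ⟨σ, rfl, hσ⟩
      exact ⟨a, b, c', d, h1, h2⟩
    · rintro ⟨a, b, c', d, h1, h2⟩
      subst h1
      obtain ⟨f, g, e1, e2, e3⟩ := exists_types a b c' d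
      obtain ⟨σ, hσ⟩ : ∃ σ : Fin 3 → Fin (a + b + c' + d) → ℤˣ, negCount 6 σ = c := by
        have e12 : eps ![g, f, fun _ => 1] {1, 2} = f := by
          funext j
          simp [eps]
        have e02 : eps ![g, f, fun _ => 1] {0, 2} = g := by
          funext j
          simp [eps]
        refine ⟨![g, f, fun _ => 1], ?_⟩
        have h := six_three ![g, f, fun _ => 1]
        simp_rw [eps_prod, e12, e02] at h
        rw [e1, e2, e3] at h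
        push_cast at h h2
        have : ((negCount 6 ![g, f, fun _ => 1] : ℕ) : ℤ) = (c : ℤ) := by linarith
        exact_mod_cast this
      exact ⟨σ, hσ⟩
  · ext ⟨c4, c6⟩
    exact joint_three s c4 c6

end Pool.Agent.Results.MP_4c9b54_co.SmallSide
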