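import Pool.Agent.H20.Neg.Realize

/-!
# The elements of `S_4(r,s)` below `2(r-1)(s-1) - 2`
-/

namespace Pool.Agent.Results.MP_4c9b54_co.SmallValues

open Pool.Agent.H20.Neg

/-- For all `r, s ≥ 2`: every product `m (r - m) d (s - d)` belongs to `S_4(r,s)`, so does
`2 (r-1) (s-1) - 2`, and below this number `S_4(r,s)` contains nothing but such products. -/
theorem result (r s : ℕ) (hr : 2 ≤ r) (hs : 2 ≤ s) :
    (∀ m ≤ r, ∀ d ≤ s, m * (r - m) * (d * (s - d)) ∈ S 4 r s) ∧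
    2 * ((r - 1) * (s - 1)) - 2 ∈ S 4 r s ∧
    ∀ c ∈ S 4 r s, c < 2 * ((r - 1) * (s - 1)) - 2 →
      ∃ m ≤ r, ∃ d ≤ s, c = m * (r - m) * (d * (s - d)) :=
  bottom r s hr hs

end Pool.Agent.Results.MP_4c9b54_co.SmallValues
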